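import Pool.Agent.H610.SqF.Almost
import Pool.Graph.R_pool_sql_team_seeded_2aa45f1a.Q26.PL.F

/-!
# Palindromes which are products of few distinct large primes, the right order of magnitude

Every base `b ≥ 2`, every modulus `M` (if `b` is odd, `4 ∤ M`) and every class `a` prime to `M`. The
almost prime palindromes come from the library (level of distribution and weighted sieve); what is new is
that almost all palindromes without small prime factors are squarefree, in every base. The set of the
palindromes is so thin that this does not follow from the trivial bound.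
-/

set_option autoImplicit false

namespace Pool.Agent.Results.MP_e8d2ce_nt.DistinctPrimeFactors

open Finset Filter

/-- The base-`b` palindromes `1 ≤ n ≤ x`. -/
def pals (b x : ℕ) : Finset ℕ :=
  (Icc 1 x).filter (fun n => (Nat.digits b n).reverse = Nat.digits b n)

/-- Those all of whose prime factors are larger than `x ^ (1 / 30)`. -/
noncomputable def rough (b x : ℕ) : Finset ℕ :=
  (pals b x).filter (fun n => ∀ p ∈ n.primeFactorsList, (x : ℝ) ^ (1 / 30 : ℝ) < p)

/-- Let `b ≥ 2`.
(1) Let `M ≥ 1` and `a` prime to `M`; if `b` is odd, suppose that `4` does not divide `M`. Let `k = 3` for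
`b ≥ 1000`, `k = 4` for `64 ≤ b < 1000` and `k = 5` for `b < 64`. There is `c > 0` such that for all large
`x`, if `P` is the number of base-`b` palindromes up to `x`, at least `c P / log x` of these palindromes
are congruent to `a` modulo `M` and products of at most `k` DISTINCT primes, all larger than `x^(1/30)`.
(2) For every `ε > 0` and all large `x` at most `ε P / log x` of the palindromes up to `x` all of whose
prime factors are larger than `x^(1/30)` are divisible by the square of a prime. -/
theorem result (b : ℕ) (hb : 2 ≤ b) :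
    (∀ M a : ℕ, 0 < M → a.Coprime M → (2 ∣ b ∨ ¬ 4 ∣ M) → ∃ c : ℝ, 0 < c ∧ ∀ᶠ x : ℕ in atTop,
      c * ((pals b x).card : ℝ) / Real.log x ≤
        (((rough b x).filter (fun n => n ≡ a [MOD M] ∧ Squarefree n ∧
          n.primeFactors.card ≤ (if 1000 ≤ b then 3 else if 64 ≤ b then 4 else 5))).card : ℝ)) ∧
    (∀ ε : ℝ, 0 < ε → ∀ᶠ x : ℕ in atTop,
      (((rough b x).filter (fun n => ¬ Squarefree n)).card : ℝ) ≤
        ε * ((pals b x).card : ℝ) / Real.log x) := by
  have h2 : ∀ ε : ℝ, 0 < ε → ∀ᶠ x : ℕ in atTop,
      (((rough b x).filter (fun n => ¬ Squarefree n)).card : ℝ) ≤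
        ε * ((pals b x).card : ℝ) / Real.log x := by
    intro ε hε
    filter_upwards [Pool.Agent.H610.SqF.rough_not_squarefree hb ε hε] with x hx
    apply hx
    intro n hn
    unfold rough pals at hn
    rw [mem_filter, mem_filter, mem_filter] at hn
    exact ⟨hn.1.1.1, hn.1.1.2, hn.1.2, hn.2⟩
  refine ⟨?_, h2⟩
  intro M a hM ha h4
  obtain ⟨c, hc0, hc⟩ := Pool.Agent.Q26.PL.allAP hb hM ha h4
  refine ⟨c / 2, by positivity, ?_⟩
  filter_upwards [hc, h2 (c / 2) (by positivity)] with x hx1 hx2
  have h3 := hx1 (((rough b x).filter (fun n => n ≡ a [MOD M] ∧ Squarefree n ∧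
      n.primeFactors.card ≤ (if 1000 ≤ b then 3 else if 64 ≤ b then 4 else 5))) ∪
      ((rough b x).filter (fun n => ¬ Squarefree n))) (by
    intro n h1 h2 h3 h4 h5
    have hr : n ∈ rough b x := by
      unfold rough pals
      rw [mem_filter, mem_filter]
      exact ⟨⟨h1, h2⟩, h5⟩
    rw [mem_union, mem_filter, mem_filter]
    by_cases hsq : Squarefree n
    · left
      refine ⟨hr, h3, hsq, ?_⟩
      refine le_trans ?_ h4
      exact List.toFinset_card_le _
    · right
      exact ⟨hr, hsq⟩)
  have h5 : ((((rough b x).filter (fun n => n ≡ a [MOD M] ∧ Squarefree n ∧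
      n.primeFactors.card ≤ (if 1000 ≤ b then 3 else if 64 ≤ b then 4 else 5))) ∪
      ((rough b x).filter (fun n => ¬ Squarefree n))).card : ℝ) ≤
      (((rough b x).filter (fun n => n ≡ a [MOD M] ∧ Squarefree n ∧
      n.primeFactors.card ≤ (if 1000 ≤ b then 3 else if 64 ≤ b then 4 else 5))).card : ℝ) +
      (((rough b x).filter (fun n => ¬ Squarefree n)).card : ℝ) := by
    exact_mod_cast card_union_le _ _
  have h6 : c * ((pals b x).card : ℝ) / Real.log x = c / 2 * ((pals b x).card : ℝ) / Real.log x +
      c / 2 * ((pals b x).card : ℝ) / Real.log x := by ring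
  have h7 : c * ((pals b x).card : ℝ) / Real.log x ≤
      ((((rough b x).filter (fun n => n ≡ a [MOD M] ∧ Squarefree n ∧
      n.primeFactors.card ≤ (if 1000 ≤ b then 3 else if 64 ≤ b then 4 else 5))) ∪
      ((rough b x).filter (fun n => ¬ Squarefree n))).card : ℝ) := h3
  linarith

end Pool.Agent.Results.MP_e8d2ce_nt.DistinctPrimeFactors
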