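import Pool.Agent.H559.PB.Law
import Pool.Agent.H559.PB.All
import Pool.Agent.H559.PB.Even

set_option autoImplicit false

/-!
# The palindromic primes in every base in the random sieve model

For every prime `q` a residue class `a q` modulo `q` is drawn uniformly and independently. The random primes are the
integers `v ≥ 3` which are, for all primes `q ≤ z v`, not in the class `0` modulo `q` if `q ≤ (log v) ^ c`, and not in the
class `a q` modulo `q` if `q > (log v) ^ c`. This is the model of Banks, Ford and Tao (*Large prime gaps and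
probabilistic models*) in which the small primes sieve out the class `0` as they do for the true primes. The sieving
limit `z` is any nondecreasing function for which `∏_{q ≤ z v} (1 - 1 / q)` is asymptotic to `1 / log v`; the choice `zBFT`
of Banks, Ford and Tao is one of them. The exponent `c` is any number larger than `1`.

The theorem: almost surely, for every base `b ≥ 2` simultaneously,
* there are infinitely many random primes which are palindromes in base `b` (Q1), and all large ones have an odd number
  of digits;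
* the number of those with exactly `2 L + 1` digits is asymptotic to `⌊b / 2⌋ b ^ L / (L log b)`, and they are
  equidistributed in the classes coprime to `m`, for every `m` coprime to `2 b`;
* for large `x` the number of random primes among the palindromes up to `x` has the order of magnitude
  `#P_b(x) / log x` (Q2).

The proof: the palindromes with given outer digits and given middle digit are equidistributed modulo every number `q`
coprime to `2 b` up to any power of the number of digits (exponential sums; no previous level of distribution is used),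
and a law of large numbers for the random sieve on such sparse sets.
-/

open MeasureTheory ProbabilityTheory Filter Topology

namespace Pool.Agent.Results.MP_e8d2ce_nt.PalindromicRandomPrimesAllBases

/-- `V m = ∏ (1 - 1 / q)` over the primes `q ≤ m` -/
noncomputable def V (m : ℕ) : ℝ := ∏ q ∈ (Finset.range (m + 1)).filter Nat.Prime, (1 - 1 / (q : ℝ))

/-- the classes `a q` are independent, and `a q` is uniform on `0, …, q - 1` for every prime `q` -/
structure Model {Ω : Type} [MeasurableSpace Ω] (P : Measure Ω) (a : ℕ → Ω → ℕ) : Prop where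
  measurable : ∀ q, Measurable (a q)
  independent : iIndepFun a P
  uniform : ∀ q, q.Prime → ∀ r < q, P.real {ω | a q ω = r} = 1 / q

/-- the sieving limit of Banks, Ford and Tao: the largest `m` with `∏_{q ≤ m} (1 - 1 / q)⁻¹ ≤ log n` -/
noncomputable def zBFT (n : ℕ) : ℕ := sSup {m : ℕ | (V m)⁻¹ ≤ Real.log n}

/-- the admissible sieving limits: the density of the random primes near `v` is asymptotic to `1 / log v` -/
def Limit (z : ℕ → ℕ) : Prop := Monotone z ∧ Tendsto (fun v => V (z v) * Real.log v) atTop (𝓝 1)

open Classical in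
/-- the set of the random primes of a sample -/
def R {Ω : Type} (z : ℕ → ℕ) (c : ℝ) (a : ℕ → Ω → ℕ) (ω : Ω) : Set ℕ :=
  {v | 3 ≤ v ∧ ∀ q ≤ z v, q.Prime → v % q ≠ if (q : ℝ) ≤ Real.log v ^ c then 0 else a q ω}

/-- `v` is a palindrome in base `b` -/
def Palindromic (b v : ℕ) : Prop := 1 ≤ v ∧ (Nat.digits b v).reverse = Nat.digits b v

/-- the number of the elements of `A` which are palindromes in base `b` with exactly `k` digits and congruent to `r`
modulo `m` -/
noncomputable def N (A : Set ℕ) (b k m r : ℕ) : ℕ :=
  {v | v ∈ A ∧ Palindromic b v ∧ (Nat.digits b v).length = k ∧ v % m = r % m}.ncard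

theorem result :
    (∃ (Ω : Type) (_ : MeasurableSpace Ω) (P : Measure Ω) (a : ℕ → Ω → ℕ), Model P a) ∧ Limit zBFT ∧
    ∀ z : ℕ → ℕ, Limit z → ∀ c : ℝ, 1 < c →
      ∀ (Ω : Type) [MeasurableSpace Ω] (P : Measure Ω) (a : ℕ → Ω → ℕ), Model P a →
        ∀ᵐ ω ∂P, ∀ b : ℕ, 2 ≤ b →
          {v | v ∈ R z c a ω ∧ Palindromic b v}.Infinite ∧
          (∀ᶠ v in atTop, v ∈ R z c a ω → Palindromic b v → Odd (Nat.digits b v).length) ∧
          (∀ m r : ℕ, 0 < m → m.Coprime (2 * b) → r.Coprime m →
            Tendsto (fun L : ℕ => (N (R z c a ω) b (2 * L + 1) m r : ℝ) /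
              (((b / 2 : ℕ) : ℝ) * (b : ℝ) ^ L / (L * Real.log b) / m.totient)) atTop (𝓝 1)) ∧
          ∃ C : ℝ, 0 < C ∧ ∀ᶠ x : ℕ in atTop,
            ({v | v ≤ x ∧ Palindromic b v}.ncard : ℝ) / (C * Real.log x) ≤
                ({v | v ≤ x ∧ Palindromic b v ∧ v ∈ R z c a ω}.ncard : ℝ) ∧
              ({v | v ≤ x ∧ Palindromic b v ∧ v ∈ R z c a ω}.ncard : ℝ) ≤
                C * ({v | v ≤ x ∧ Palindromic b v}.ncard : ℝ) / Real.log x := by
  classical
  refine ⟨?_, ⟨Pool.Agent.T2H32.BF.z0_mono, Pool.Agent.T2H32.BF.z0_lim⟩, ?_⟩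
  · obtain ⟨Ω, i, P, a, h⟩ := Pool.Agent.T2H32.BF.exists_model
    exact ⟨Ω, i, P, a, h.measurable, h.independent, h.uniform⟩
  · intro z hz c hc1 Ω _ P a hmod
    have h : Pool.Agent.T2H32.BF.Model P a := ⟨hmod.measurable, hmod.independent, hmod.uniform⟩
    filter_upwards [Pool.Agent.H559.PB.law h z hz c hc1] with ω hω b hb
    have e : R z c a ω = Pool.Agent.H559.HY.RS z (Pool.Agent.H559.HY.WW c) (fun p => a p ω) := by
      ext v
      simp only [R, Pool.Agent.H559.HY.RS, Set.mem_ofPred_eq]
      refine and_congr_right fun hv => ?_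
      refine forall_congr' fun q => forall_congr' fun _ => forall_congr' fun _ => ?_
      have h0 : 0 ≤ Real.log v ^ c := Real.rpow_nonneg (Real.log_nonneg (by
        have : 1 ≤ v := by omega
        exact_mod_cast this)) c
      have h1 : (q : ℝ) ≤ Real.log v ^ c ↔ q ≤ Pool.Agent.H559.HY.WW c v := (Nat.le_floor_iff h0).symm
      by_cases h2 : (q : ℝ) ≤ Real.log v ^ c
      · rw [if_pos h2, if_pos (h1.1 h2)]
      · rw [if_neg h2, if_neg (fun h3 => h2 (h1.2 h3))]
    rw [e]
    set A := Pool.Agent.H559.HY.RS z (Pool.Agent.H559.HY.WW c) (fun p => a p ω) with hA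
    have hb1 : 1 < b := by omega
    have hb0 : (0 : ℝ) < b := by exact_mod_cast (by omega : 0 < b)
    have hlog : 0 < Real.log b := Real.log_pos (by exact_mod_cast hb1)
    have hhalf : (0 : ℝ) < ((b / 2 : ℕ) : ℝ) := by exact_mod_cast (by omega : 0 < b / 2)
    have hmem : ∀ L v : ℕ, v ∈ Pool.Agent.H559.PB.palb b L ↔ Palindromic b v ∧ (Nat.digits b v).length = 2 * L + 1 := by
      intro L v
      unfold Pool.Agent.H559.PB.palb Palindromic
      rw [Finset.mem_filter, Finset.mem_range]
      have h1 := Nat.digits_length_le_iff (b := b) (k := 2 * L + 1) hb1 v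
      have h2 := Nat.lt_digits_length_iff (b := b) (k := 2 * L) hb1 v
      constructor
      · rintro ⟨a1, a2, a3⟩
        have b1 := h1.2 a1
        have b2 := h2.2 a2
        have b3 : 0 < b ^ (2 * L) := by positivity
        exact ⟨⟨by omega, a3⟩, by omega⟩
      · rintro ⟨a1, a2⟩
        exact ⟨h1.1 (by omega), h2.1 (by omega), a1.2⟩
    have hN : ∀ L m r : ℕ, N A b (2 * L + 1) m r =
        ((Pool.Agent.H559.PB.palb b L).filter (fun v => v ∈ A ∧ v % m = r % m)).card := by
      intro L m r
      unfold N
      rw [← Set.ncard_coe_finset]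
      congr 1
      ext v
      rw [Finset.coe_filter, Set.mem_ofPred_eq, Set.mem_ofPred_eq, hmem]
      tauto
    have hodd : ∀ᶠ v : ℕ in atTop, v ∈ A → Palindromic b v → Odd (Nat.digits b v).length := by
      filter_upwards [Pool.Agent.H559.PB.cop_ev z hz c hc1 (fun p => a p ω) (b + 1) (by omega)] with v h1 h2 h3
      by_contra hcon
      rw [Nat.not_odd_iff_even] at hcon
      have h4 := Pool.Agent.H559.PB.t_even b v hb h3 hcon
      have h5 := Nat.Coprime.eq_one_of_dvd (h1 h2).symm h4
      omega
    have h1 := hω b 1 0 hb one_pos (Nat.coprime_one_left _) (Nat.coprime_one_right 0)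
    rw [Nat.totient_one, Nat.cast_one, div_one] at h1
    refine ⟨?_, hodd, fun m r hm hmc hr => ?_, ?_⟩
    · rw [Set.infinite_iff_exists_gt]
      intro n
      obtain ⟨L, h2, h3⟩ := ((h1.eventually (lt_mem_nhds (show (0 : ℝ) < ((b / 2 : ℕ) : ℝ) / Real.log b by positivity))).and
        (eventually_ge_atTop n)).exists
      have h4 : 0 < ((Pool.Agent.H559.PB.palb b L).filter (fun v => v ∈ A ∧ v % 1 = 0 % 1)).card := by
        by_contra hcon
        push Not at hcon
        have h5 : ((Pool.Agent.H559.PB.palb b L).filter (fun v => v ∈ A ∧ v % 1 = 0 % 1)).card = 0 := by omega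
        rw [h5] at h2
        simp at h2
      obtain ⟨v, hv⟩ := Finset.card_pos.1 h4
      rw [Finset.mem_filter] at hv
      refine ⟨v, ⟨hv.2.1, ((hmem L v).1 hv.1).1⟩, ?_⟩
      have h5 : b ^ (2 * L) ≤ v := by
        have := hv.1
        unfold Pool.Agent.H559.PB.palb at this
        rw [Finset.mem_filter] at this
        exact this.2.1
      have h6 : 2 * L < b ^ (2 * L) := Nat.lt_pow_self hb1
      have h7 : L ≤ 2 * L := by omega
      omega
    · have hφ : (0 : ℝ) < m.totient := by exact_mod_cast Nat.totient_pos.2 hm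
      have h2 := (hω b m r hb hm hmc hr).const_mul (Real.log b * m.totient / ((b / 2 : ℕ) : ℝ))
      have e1 : Real.log b * m.totient / ((b / 2 : ℕ) : ℝ) * (((b / 2 : ℕ) : ℝ) / Real.log b / m.totient) = 1 := by
        field_simp
      rw [e1] at h2
      refine h2.congr' ?_
      filter_upwards [eventually_ge_atTop 1] with L hL
      have hL0 : (0 : ℝ) < L := by exact_mod_cast hL
      rw [hN]
      field_simp
    · have h2 : Tendsto (fun L : ℕ => (((Pool.Agent.H559.PB.palb b L).filter (fun v => v ∈ A)).card : ℝ) * L / (b : ℝ) ^ L)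
          atTop (𝓝 (((b / 2 : ℕ) : ℝ) / Real.log b)) := by
        refine h1.congr fun L => ?_
        congr 4
        ext v
        simp [Nat.mod_one]
      obtain ⟨C, hC, h3⟩ := Pool.Agent.H559.PB.t_all b (((b / 2 : ℕ) : ℝ) / Real.log b) hb (by positivity)
      refine ⟨C, hC, ?_⟩
      filter_upwards [h3 A hodd h2] with x hx
      have e2 : {v | v ≤ x ∧ Palindromic b v}.ncard =
          ((Finset.Icc 1 x).filter (fun v => Pool.Agent.H559.PB.Palb b v)).card := by
        rw [← Set.ncard_coe_finset]
        congr 1
        ext v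
        rw [Finset.coe_filter, Set.mem_ofPred_eq, Set.mem_ofPred_eq, Finset.mem_Icc]
        unfold Palindromic Pool.Agent.H559.PB.Palb
        tauto
      have e3 : {v | v ≤ x ∧ Palindromic b v ∧ v ∈ A}.ncard =
          ((Finset.Icc 1 x).filter (fun v => Pool.Agent.H559.PB.Palb b v ∧ v ∈ A)).card := by
        rw [← Set.ncard_coe_finset]
        congr 1
        ext v
        rw [Finset.coe_filter, Set.mem_ofPred_eq, Set.mem_ofPred_eq, Finset.mem_Icc]
        unfold Palindromic Pool.Agent.H559.PB.Palb
        tauto
      rw [e2, e3]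
      exact hx

end Pool.Agent.Results.MP_e8d2ce_nt.PalindromicRandomPrimesAllBases
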