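import Pool.Agent.H610.SqF.Main

/-!
# Squarefree palindromes in every base

For every base `b ≥ 2` the squarefree numbers have an explicit positive density among the base-`b`
palindromes which are prime to `b` and have an odd number of digits (all palindromic primes but the
divisors of `b (b + 1)` are of this kind), and a positive proportion of all base-`b` palindromes is
squarefree. The squares of the large numbers are treated with a second moment over the multipliers
`d ^ 2 mod b ^ I`, the squares of the very large ones with the quadratic congruence which the digits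
of a palindrome impose on `d`; the bound for the contribution of all `d ≥ D` saves any power of `log D`.
-/

set_option autoImplicit false

namespace Pool.Agent.Results.MP_e8d2ce_nt.SquarefreePalindromes

open Finset Filter

/-- The base-`b` palindromes `1 ≤ n ≤ x`. -/
def pals (b x : ℕ) : Finset ℕ :=
  (Icc 1 x).filter (fun n => (Nat.digits b n).reverse = Nat.digits b n)

/-- The base-`b` palindromes `1 ≤ n ≤ x` which are prime to `b` and have an odd number of digits. -/
def cand (b x : ℕ) : Finset ℕ :=
  (Icc 1 x).filter (fun n => (Nat.digits b n).reverse = Nat.digits b n ∧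
    Odd (Nat.digits b n).length ∧ n.Coprime b)

/-- The density of the squarefree numbers: `(6 / π ^ 2) ∏_{p ∣ b} (1 - 1 / p ^ 2)⁻¹`, multiplied by
`1 - 1 / (3 b)` if `b` is odd. -/
noncomputable def density (b : ℕ) : ℝ :=
  6 / Real.pi ^ 2 * (∏ p ∈ b.primeFactors, (1 - 1 / (p:ℝ) ^ 2)⁻¹) *
    (if Even b then 1 else 1 - 1 / (3 * (b:ℝ)))

/-- **Squarefree palindromes.** Let `b ≥ 2`.
(1) As `x → ∞` the proportion of squarefree numbers among the base-`b` palindromes `n ≤ x` which are
prime to `b` and have an odd number of digits tends to `density b`.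
(2) There is `c > 0` such that for all large `x` at least `c P` of the `P` base-`b` palindromes
`n ≤ x` are squarefree (and prime to `b`, with an odd number of digits).
(3) For every `A` there is `C` such that for all large `h` and all `1 ≤ σ ≤ h` at most `C b^h / σ^A`
of the palindromes with `2 h + 1` digits which are prime to `b` are divisible by `d ^ 2` for some
`d ≥ b^σ`. -/
theorem result (b : ℕ) (hb : 2 ≤ b) :
    Tendsto (fun x : ℕ => (((cand b x).filter Squarefree).card : ℝ) / ((cand b x).card : ℝ)) atTop
      (nhds (density b)) ∧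
    (∃ c : ℝ, 0 < c ∧ ∀ᶠ x : ℕ in atTop,
      c * (pals b x).card ≤ ((cand b x).filter Squarefree).card) ∧
    (∀ A : ℕ, ∃ C : ℝ, ∀ᶠ h : ℕ in atTop, ∀ σ : ℕ, 1 ≤ σ → σ ≤ h →
      ({n : ℕ | (Nat.digits b n).reverse = Nat.digits b n ∧ (Nat.digits b n).length = 2 * h + 1 ∧
        n.Coprime b ∧ ∃ d, b ^ σ ≤ d ∧ d ^ 2 ∣ n}.ncard : ℝ) ≤ C * (b:ℝ) ^ h / (σ:ℝ) ^ A) := by
  have h : density b = Pool.Agent.H610.SqF.del b := by
    unfold density Pool.Agent.H610.SqF.del
    congr 1
    split_ifs
    · rfl
    · have : (b:ℝ) ≠ 0 := by positivity
      field_simp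
  rw [h]
  exact ⟨Pool.Agent.H610.SqF.density hb, Pool.Agent.H610.SqF.positive hb,
    Pool.Agent.H610.SqF.tail_digits hb⟩

end Pool.Agent.Results.MP_e8d2ce_nt.SquarefreePalindromes
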